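import Pool.Agent.H25.PPBot

/-!
# The pp-constructability poset of finite digraphs has an infinite ascending chain

The statement allows the formula `⊥` in the definition of a pp-power, as the problem does.
-/

set_option autoImplicit false

namespace Pool.Agent.Results.MP_64a558_lc.AscendingChain

open Pool.Agent.H25.PPBot

/-- There are finite nonempty digraphs `G 0, G 1, G 2, ...` such that `G i` pp-constructs
`G (i + 1)` and `G (i + 1)` does not pp-construct `G i`. -/
theorem result : ∃ (V : ℕ → Type) (_ : ∀ i, Fintype (V i)) (_ : ∀ i, Nonempty (V i))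
    (G : ∀ i, Digraph (V i)),
    ∀ i, PPConstructs (G i) (G (i + 1)) ∧ ¬ PPConstructs (G (i + 1)) (G i) := by
  obtain ⟨k, G, hk, hG, h⟩ := chain
  refine ⟨fun i => Fin (k i), fun i => inferInstance, fun i => ⟨⟨0, hk i⟩⟩, G, fun i => ⟨?_, ?_⟩⟩
  · exact ppConstructs_of_ppc (h i).1
  · exact fun h' => (h i).2 (ppc_of_ppConstructs (hG i) h')

end Pool.Agent.Results.MP_64a558_lc.AscendingChain
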